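import Pool.Agent.H61.AR.Targets
import Pool.Agent.H60.CM.Basic

/-!
# arq_modules, row DBD: the density at boundary points
-/

set_option autoImplicit false

open Set Function MeasureTheory Filter Topology
open scoped Manifold ContDiff Matrix
open Pool.Agent.H61.AR Pool.Agent.H60.CM

namespace Pool.Agent.H20.AR

theorem cont_co (i : Fin 2) : Continuous fun y : E2 => y i := by fun_prop

theorem isOpen_Va (a : ℝ) : IsOpen {y : E2 | y 0 < a ∧ |y 1| < a} :=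
  (isOpen_lt (cont_co 0) continuous_const).inter
    (isOpen_lt (continuous_abs.comp (cont_co 1)) continuous_const)

theorem isOpen_Qi (a : ℝ) : IsOpen (Qi a) :=
  (isOpen_lt continuous_const (cont_co 0)).inter (isOpen_Va a)

theorem Qb_eq (a : ℝ) : Qb a = Hp ∩ {y : E2 | y 0 < a ∧ |y 1| < a} := rfl

theorem convex_Hp : Convex ℝ Hp := by
  intro x hx y hy s t hs ht _
  change 0 ≤ (s • x + t • y) 0
  have h1 : (s • x + t • y) 0 = s * x 0 + t * y 0 := rfl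
  rw [h1]
  exact add_nonneg (mul_nonneg hs hx) (mul_nonneg ht hy)

theorem unique_Hp : UniqueDiffOn ℝ Hp := by
  apply uniqueDiffOn_convex convex_Hp
  refine ⟨ee 0, ?_⟩
  rw [mem_interior]
  refine ⟨{y : E2 | 0 < y 0}, fun y (hy : 0 < y 0) => (le_of_lt hy : 0 ≤ y 0),
    isOpen_lt continuous_const (cont_co 0), ?_⟩
  change 0 < (ee 0) 0
  unfold ee
  simp

theorem unique_Qb (a : ℝ) : UniqueDiffOn ℝ (Qb a) := by
  rw [Qb_eq]
  exact unique_Hp.inter (isOpen_Va a)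

/-- the two kinds of derivatives agree on the half box -/
theorem fdw_eq {F : Type} [NormedAddCommGroup F] [NormedSpace ℝ F] (f : E2 → F) (a : ℝ) (y : E2)
    (hy : y ∈ Qb a) : fderivWithin ℝ f (Qb a) y = fderivWithin ℝ f Hp y := by
  rw [Qb_eq]
  exact fderivWithin_inter ((isOpen_Va a).mem_nhds hy.2)

theorem pw_eq_pd {F : Type} [NormedAddCommGroup F] [NormedSpace ℝ F] (f : E2 → F) (y : E2)
    (hy : 0 < y 0) (i : Fin 2) : pw f y i = pd f y i := by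
  unfold pw pd
  rw [fderivWithin_of_mem_nhds]
  exact mem_of_superset ((isOpen_lt continuous_const (cont_co 0)).mem_nhds
    (show y ∈ {z : E2 | 0 < z 0} from hy)) (fun z (hz : 0 < z 0) => (le_of_lt hz : 0 ≤ z 0))

theorem pw_cont {F : Type} [NormedAddCommGroup F] [NormedSpace ℝ F] (f : E2 → F) (a : ℝ)
    (h : ContDiffOn ℝ ∞ f (Qb a)) (i : Fin 2) : ContinuousOn (fun y => pw f y i) (Qb a) := by
  have h1 : ContinuousOn (fderivWithin ℝ f (Qb a)) (Qb a) :=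
    h.continuousOn_fderivWithin (unique_Qb a) (by simp)
  have h2 : ContinuousOn (fun y => fderivWithin ℝ f (Qb a) y (ee i)) (Qb a) :=
    h1.clm_apply continuousOn_const
  refine h2.congr (fun y hy => ?_)
  unfold pw
  simp only
  rw [fdw_eq f a y hy]

/-- the density of the area up to the edge -/
noncomputable def aww (X : E2 → V3) (y : E2) : ℝ :=
  Real.sqrt ((pw X y 0 ⨯₃ pw X y 1) ⬝ᵥ (pw X y 0 ⨯₃ pw X y 1))

theorem aww_eq (X : E2 → V3) (y : E2) (hy : 0 < y 0) : aww X y = aw X y := by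
  unfold aww aw
  rw [pw_eq_pd X y hy, pw_eq_pd X y hy]

theorem hc_cross : Continuous fun q : V3 × V3 =>
    Real.sqrt ((q.1 ⨯₃ q.2) ⬝ᵥ (q.1 ⨯₃ q.2)) := by
  have h : (fun q : V3 × V3 => Real.sqrt ((q.1 ⨯₃ q.2) ⬝ᵥ (q.1 ⨯₃ q.2))) =
      fun q : V3 × V3 => Real.sqrt (
        (q.1 1 * q.2 2 - q.1 2 * q.2 1) * (q.1 1 * q.2 2 - q.1 2 * q.2 1) +
        (q.1 2 * q.2 0 - q.1 0 * q.2 2) * (q.1 2 * q.2 0 - q.1 0 * q.2 2) +
        (q.1 0 * q.2 1 - q.1 1 * q.2 0) * (q.1 0 * q.2 1 - q.1 1 * q.2 0)) := by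
    funext q
    rw [cross_apply]
    simp only [dotProduct, Fin.sum_univ_three]
    rfl
  rw [h]
  have a0 : Continuous fun q : V3 × V3 => q.1 0 := (continuous_apply 0).comp continuous_fst
  have a1 : Continuous fun q : V3 × V3 => q.1 1 := (continuous_apply 1).comp continuous_fst
  have a2 : Continuous fun q : V3 × V3 => q.1 2 := (continuous_apply 2).comp continuous_fst
  have b0 : Continuous fun q : V3 × V3 => q.2 0 := (continuous_apply 0).comp continuous_snd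
  have b1 : Continuous fun q : V3 × V3 => q.2 1 := (continuous_apply 1).comp continuous_snd
  have b2 : Continuous fun q : V3 × V3 => q.2 2 := (continuous_apply 2).comp continuous_snd
  have c0 := (a1.mul b2).sub (a2.mul b1)
  have c1 := (a2.mul b0).sub (a0.mul b2)
  have c2 := (a0.mul b1).sub (a1.mul b0)
  exact Real.continuous_sqrt.comp (((c0.mul c0).add (c1.mul c1)).add (c2.mul c2))

theorem aww_cont (X : E2 → V3) (a : ℝ) (h : ContDiffOn ℝ ∞ X (Qb a)) :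
    ContinuousOn (aww X) (Qb a) := by
  have h0 := pw_cont X a h 0
  have h1 := pw_cont X a h 1
  have h2 := h0.prodMk h1
  have h3 := hc_cross.comp_continuousOn h2
  refine h3.congr (fun y _ => ?_)
  rfl

/-- comparison of the sup norm with the dot product -/
theorem dot_le (u v : V3) : u ⬝ᵥ v ≤ 3 * (‖u‖ * ‖v‖) := by
  simp only [dotProduct, Fin.sum_univ_three]
  have h : ∀ i, u i * v i ≤ ‖u‖ * ‖v‖ := by
    intro i
    have h1 := norm_le_pi_norm u i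
    have h2 := norm_le_pi_norm v i
    calc u i * v i ≤ |u i * v i| := le_abs_self _
      _ = ‖u i‖ * ‖v i‖ := by rw [abs_mul]; rfl
      _ ≤ ‖u‖ * ‖v‖ := mul_le_mul h1 h2 (norm_nonneg _) (norm_nonneg _)
  have := h 0
  have := h 1
  have := h 2
  linarith

theorem sq_le_dot (u : V3) : ‖u‖ ^ 2 ≤ u ⬝ᵥ u := by
  have h0 : 0 ≤ u ⬝ᵥ u := by
    simp only [dotProduct, Fin.sum_univ_three]
    nlinarith [mul_self_nonneg (u 0), mul_self_nonneg (u 1), mul_self_nonneg (u 2)]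
  have h : ‖u‖ ≤ Real.sqrt (u ⬝ᵥ u) := by
    rw [pi_norm_le_iff_of_nonneg (Real.sqrt_nonneg _)]
    intro i
    apply Real.le_sqrt_of_sq_le
    rw [Real.norm_eq_abs, sq_abs]
    simp only [dotProduct, Fin.sum_univ_three]
    fin_cases i
    · simp only [Fin.zero_eta]
      nlinarith [mul_self_nonneg (u 1), mul_self_nonneg (u 2)]
    · simp only [Fin.mk_one]
      nlinarith [mul_self_nonneg (u 0), mul_self_nonneg (u 2)]
    · simp only [Fin.reduceFinMk]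
      nlinarith [mul_self_nonneg (u 0), mul_self_nonneg (u 1)]
  calc ‖u‖ ^ 2 ≤ Real.sqrt (u ⬝ᵥ u) ^ 2 := pow_le_pow_left₀ (norm_nonneg _) h 2
    _ = u ⬝ᵥ u := Real.sq_sqrt h0

theorem decomp (y : E2) : y = y 0 • ee 0 + y 1 • ee 1 := by
  ext i
  fin_cases i
  · simp [ee]
  · simp [ee]

/-- lower bound for an immersive linear map -/
theorem inj_bound (A : E2 →L[ℝ] V3) (h : A (ee 0) ⨯₃ A (ee 1) ≠ 0) :
    ∃ K : ℝ, 0 < K ∧ ∀ y, ‖y‖ ≤ K * ‖A y‖ := by
  have hinj : LinearMap.ker (A : E2 →ₗ[ℝ] V3) = ⊥ := by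
    rw [LinearMap.ker_eq_bot']
    intro y hy
    have h1 : A y = y 0 • A (ee 0) + y 1 • A (ee 1) := by
      conv_lhs => rw [decomp y]
      rw [map_add, map_smul, map_smul]
    have h2 : y 0 • A (ee 0) + y 1 • A (ee 1) = 0 := by rw [← h1]; exact hy
    have h3 : y 0 • (A (ee 0) ⨯₃ A (ee 1)) = 0 := by
      have h4 : (y 0 • A (ee 0) + y 1 • A (ee 1)) ⨯₃ A (ee 1) = 0 := by
        rw [h2]; simp
      rw [map_add, LinearMap.add_apply, map_smul, map_smul, LinearMap.smul_apply,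
        LinearMap.smul_apply, cross_self, smul_zero, add_zero] at h4
      exact h4
    have h5 : y 1 • (A (ee 0) ⨯₃ A (ee 1)) = 0 := by
      have h4 : A (ee 0) ⨯₃ (y 0 • A (ee 0) + y 1 • A (ee 1)) = 0 := by
        rw [h2]; simp
      rw [map_add, map_smul, map_smul, cross_self, smul_zero, zero_add] at h4
      exact h4
    have h6 : y 0 = 0 := (smul_eq_zero.1 h3).resolve_right h
    have h7 : y 1 = 0 := (smul_eq_zero.1 h5).resolve_right h
    rw [decomp y, h6, h7]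
    simp
  obtain ⟨K, hK, hA⟩ := (A : E2 →ₗ[ℝ] V3).exists_antilipschitzWith hinj
  refine ⟨K, by exact_mod_cast hK, fun y => ?_⟩
  have := hA.le_mul_dist y 0
  simpa using this

/-- the image of a point under the derivative -/
theorem A_apply (A : E2 →L[ℝ] V3) (y : E2) : A y = y 0 • A (ee 0) + y 1 • A (ee 1) := by
  conv_lhs => rw [decomp y]
  rw [map_add, map_smul, map_smul]

/-- the first order comparison -/
theorem first_order (Y : E2 → V3) (a δ : ℝ) (A : E2 →L[ℝ] V3) (hδ : 0 < δ)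
    (hA : HasFDerivWithinAt Y A (Qb a) 0) (h : A (ee 0) ⨯₃ A (ee 1) ≠ 0) :
    ∀ᶠ y in 𝓝[Qb a] (0 : E2), (Y y - Y 0) ⬝ᵥ (Y y - Y 0) ≤ (1 + δ) * (A y ⬝ᵥ A y) := by
  obtain ⟨K, hK, hb⟩ := inj_bound A h
  -- the size of the error
  obtain ⟨c, hc0, hc⟩ : ∃ c : ℝ, 0 < c ∧ 6 * (c * K) + 3 * (c * K) ^ 2 ≤ δ := by
    have h1 : 0 < min 1 (δ / 9) := lt_min one_pos (by positivity)
    refine ⟨min 1 (δ / 9) / K, by positivity, ?_⟩
    rw [div_mul_cancel₀ _ hK.ne']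
    have h2 : min 1 (δ / 9) ≤ 1 := min_le_left _ _
    have h3 : min 1 (δ / 9) ≤ δ / 9 := min_le_right _ _
    nlinarith
  have h2 := (hasFDerivWithinAt_iff_isLittleO.1 hA).def hc0
  filter_upwards [h2] with y hy
  rw [sub_zero] at hy
  set R : V3 := Y y - Y 0 - A y with hR
  have hX : Y y - Y 0 = A y + R := by rw [hR]; abel
  have hn : ‖R‖ ≤ c * K * ‖A y‖ := by
    calc ‖R‖ ≤ c * ‖y‖ := hy
      _ ≤ c * (K * ‖A y‖) := mul_le_mul_of_nonneg_left (hb y) hc0.le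
      _ = c * K * ‖A y‖ := by ring
  have h3 : (A y + R) ⬝ᵥ (A y + R) = A y ⬝ᵥ A y + 2 * (A y ⬝ᵥ R) + R ⬝ᵥ R := by
    rw [add_dotProduct, dotProduct_add, dotProduct_add, dotProduct_comm R (A y)]
    ring
  rw [hX, h3]
  have h4 := dot_le (A y) R
  have h5 := dot_le R R
  have h6 := sq_le_dot (A y)
  have h7 : ‖A y‖ * ‖R‖ ≤ c * K * ‖A y‖ ^ 2 := by
    calc ‖A y‖ * ‖R‖ ≤ ‖A y‖ * (c * K * ‖A y‖) :=
          mul_le_mul_of_nonneg_left hn (norm_nonneg _)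
      _ = c * K * ‖A y‖ ^ 2 := by ring
  have h8 : ‖R‖ * ‖R‖ ≤ (c * K) ^ 2 * ‖A y‖ ^ 2 := by
    calc ‖R‖ * ‖R‖ ≤ (c * K * ‖A y‖) * (c * K * ‖A y‖) :=
          mul_le_mul hn hn (norm_nonneg _) (by positivity)
      _ = (c * K) ^ 2 * ‖A y‖ ^ 2 := by ring
  have h9 : (6 * (c * K) + 3 * (c * K) ^ 2) * ‖A y‖ ^ 2 ≤ δ * (A y ⬝ᵥ A y) :=
    mul_le_mul hc h6 (by positivity) hδ.le
  nlinarith

theorem mem_Qb_zero (a : ℝ) (ha : 0 < a) : (0 : E2) ∈ Qb a := by
  refine ⟨le_refl _, ha, ?_⟩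
  change |(0 : ℝ)| < a
  rw [abs_zero]
  exact ha

/-- from neighbourhoods to half boxes -/
theorem half_box (a : ℝ) (ha : 0 < a) (P : E2 → Prop) (h : ∀ᶠ y in 𝓝[Qb a] (0 : E2), P y) :
    ∃ ρ : ℝ, 0 < ρ ∧ ρ < a ∧ ∀ y ∈ Qi ρ, P y := by
  rw [eventually_nhdsWithin_iff, Metric.eventually_nhds_iff] at h
  obtain ⟨t, ht, h⟩ := h
  refine ⟨min (a / 2) (t / 2), lt_min (by linarith) (by linarith),
    lt_of_le_of_lt (min_le_left _ _) (by linarith), fun y hy => ?_⟩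
  obtain ⟨h1, h2, h3⟩ := hy
  have h4 : y 0 < a / 2 := lt_of_lt_of_le h2 (min_le_left _ _)
  have h5 : y 0 < t / 2 := lt_of_lt_of_le h2 (min_le_right _ _)
  have h6 : |y 1| < a / 2 := lt_of_lt_of_le h3 (min_le_left _ _)
  have h7 : |y 1| < t / 2 := lt_of_lt_of_le h3 (min_le_right _ _)
  apply h
  · rw [dist_zero_right, EuclideanSpace.norm_eq, Fin.sum_univ_two]
    rw [Real.sqrt_lt' ht]
    rw [Real.norm_eq_abs, Real.norm_eq_abs, abs_of_pos h1]
    nlinarith [abs_nonneg (y 1)]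
  · exact ⟨h1.le, by linarith, by linarith⟩

theorem Qi_sub (ρ a : ℝ) (h : ρ ≤ a) : Qi ρ ⊆ Qi a :=
  fun _ hy => ⟨hy.1, lt_of_lt_of_le hy.2.1 h, lt_of_lt_of_le hy.2.2 h⟩

theorem Qi_sub_Qb (a : ℝ) : Qi a ⊆ Qb a := fun _ hy => ⟨le_of_lt hy.1, hy.2.1, hy.2.2⟩

theorem pch_sub (D : Dat) (ρ a : ℝ) (ψ : E2 → D.S) (h : ρ ≤ a) (hP : D.Pch (Qi a) ψ) :
    D.Pch (Qi ρ) ψ where
  isOpen := isOpen_Qi ρ
  smooth := hP.smooth.mono (Qi_sub ρ a h)
  inj := hP.inj.mono (Qi_sub ρ a h)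
  im := fun V hV hO => hP.im V (hV.trans (Qi_sub ρ a h)) hO
  int := (image_mono (Qi_sub ρ a h)).trans hP.int
  imm := fun y hy => hP.imm y (Qi_sub ρ a h hy)

theorem ph_cont (D : Dat) (c : V3) (ε : ℝ) (hε : 0 < ε) :
    Continuous fun q => ε ^ 2 * ph D c ε q ^ 2 := by
  have hx : Continuous D.x := D.cmc.x_smooth.continuous
  have h1 : ∀ i, Continuous fun q => D.x q i := fun i => (continuous_apply i).comp hx
  have h2 : Continuous fun q => sqd (D.x q) c := by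
    unfold sqd
    simp only [dotProduct, Fin.sum_univ_three, Pi.sub_apply]
    have k := fun i => ((h1 i).sub (continuous_const (y := c i))).mul
      ((h1 i).sub (continuous_const (y := c i)))
    exact ((k 0).add (k 1)).add (k 2)
  have h3 : ∀ q, sqd (D.x q) c + ε ^ 2 ≠ 0 := by
    intro q
    have h4 : 0 ≤ sqd (D.x q) c := by
      unfold sqd
      exact (sq_nonneg _).trans (sq_le_dot _)
    positivity
  unfold ph
  exact continuous_const.mul ((continuous_const.div (h2.add continuous_const) h3).pow 2)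

theorem pf_DBD (h1 : T_BCH) (h2 : T_ARE) (h3 : T_DLM) (_h4 : T_PDF) : T_DBD := by
  intro D p U η hp hU hpU hη
  obtain ⟨a, ψ, hB, hψ0, hψU⟩ := h1 D p U hp hU hpU
  set Y : E2 → V3 := D.x ∘ ψ with hY
  have hYc : ContDiffOn ℝ ∞ Y (Qb a) := hB.smooth V3 D.x D.cmc.x_smooth
  have h0 : (0 : E2) ∈ Qb a := mem_Qb_zero a hB.pos
  set A : E2 →L[ℝ] V3 := fderivWithin ℝ Y (Qb a) 0 with hA
  have hAd : HasFDerivWithinAt Y A (Qb a) 0 :=
    ((hYc.differentiableOn (by simp)) 0 h0).hasFDerivWithinAt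
  have hA0 : A (ee 0) = pw Y 0 0 := by
    unfold pw
    rw [hA, fdw_eq Y a 0 h0]
  have hA1 : A (ee 1) = pw Y 0 1 := by
    unfold pw
    rw [hA, fdw_eq Y a 0 h0]
  have himm : A (ee 0) ⨯₃ A (ee 1) ≠ 0 := by
    rw [hA0, hA1]
    exact hB.imm 0 h0
  obtain ⟨δ, hδ, hδ1, hD⟩ := h3 (A (ee 0)) (A (ee 1)) η himm hη
  set J : ℝ := Real.sqrt ((A (ee 0) ⨯₃ A (ee 1)) ⬝ᵥ (A (ee 0) ⨯₃ A (ee 1))) with hJ
  have hJ0 : 0 < J := by
    rw [hJ]
    apply Real.sqrt_pos.2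
    have h5 := sq_le_dot (A (ee 0) ⨯₃ A (ee 1))
    have h6 : 0 < ‖A (ee 0) ⨯₃ A (ee 1)‖ ^ 2 := by
      have := norm_pos_iff.2 himm
      positivity
    linarith
  have hWc := aww_cont Y a hYc
  have hW0 : aww Y 0 = J := by
    unfold aww
    rw [hJ, hA0, hA1]
  have hev1 := first_order Y a δ A hδ hAd himm
  have hev2 : ∀ᶠ y in 𝓝[Qb a] (0 : E2), (1 - δ) * J < aww Y y ∧ aww Y y < 2 * J := by
    have h5 : Tendsto (aww Y) (𝓝[Qb a] 0) (𝓝 J) := by
      rw [← hW0]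
      exact hWc 0 h0
    have h6 := h5.eventually (lt_mem_nhds (show (1 - δ) * J < J by nlinarith))
    have h7 := h5.eventually (gt_mem_nhds (show J < 2 * J by linarith))
    exact h6.and h7
  obtain ⟨ρ, hρ, hρa, hρP⟩ := half_box a hB.pos _ (hev1.and hev2)
  have hP := pch_sub D ρ a ψ hρa.le hB.int
  filter_upwards [hD ρ hρ, self_mem_nhdsWithin] with ε hε hε0
  have hε0' : 0 < ε := hε0
  have hcont := ph_cont D (D.x p) ε hε0'
  have hsub : Qi ρ ⊆ Qb a := (Qi_sub ρ a hρa.le).trans (Qi_sub_Qb a)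
  have h5 := hε (fun y => Y y - Y 0) (aw Y) (Qi ρ) (Real.pi / 2) (Or.inr ⟨rfl, rfl⟩)
    ((hYc.continuousOn.mono hsub).sub continuousOn_const)
    ((hWc.mono hsub).congr (fun y hy => (aww_eq Y y hy.1).symm))
    (by
      intro y hy
      obtain ⟨h6, h7, h8⟩ := hρP y hy
      rw [aww_eq Y y hy.1] at h7 h8
      refine ⟨?_, h7.le, h8.le⟩
      rw [← A_apply]
      exact h6)
  refine h5.trans ?_
  have hY0 : Y 0 = D.x p := by
    rw [hY, comp_apply, hψ0]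
  have h6 := h2 D (Qi ρ) ψ hP (fun q => ε ^ 2 * ph D (D.x p) ε q ^ 2) hcont.measurable
  have h7 : ∫ y in Qi ρ, ε ^ 2 * (1 / ((Y y - Y 0) ⬝ᵥ (Y y - Y 0) + ε ^ 2)) ^ 2 * aw Y y =
      ∫ y in Qi ρ, (fun q => ε ^ 2 * ph D (D.x p) ε q ^ 2) (ψ y) * aw (D.x ∘ ψ) y := by
    rw [hY0]
    rfl
  rw [h7, ← h6]
  apply setIntegral_mono_set
  · apply Integrable.integrableOn
    exact hcont.integrable_of_hasCompactSupport (HasCompactSupport.of_compactSpace _)
  · exact Eventually.of_forall (fun q => by positivity)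
  · apply LE.le.eventuallyLE
    intro q hq
    obtain ⟨y, hy, rfl⟩ := hq
    exact ⟨hP.int ⟨y, hy, rfl⟩, hψU ⟨y, hsub hy, rfl⟩⟩

end Pool.Agent.H20.AR
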